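import Mathlib
import Pool.Agent.Run7.h754.SPC

/-!
# Sequentially pseudocompact groups which are not selectively sequentially pseudocompact

Without additional set-theoretic hypotheses there is an Abelian (even Boolean) Hausdorff
topological group which is sequentially pseudocompact but not selectively sequentially
pseudocompact.
-/

open Pool.Agent.Run7.h754.SPC

namespace Pool.Agent.Results.MP_3c9c51_gt.AbelianExample

theorem result : ∃ (G : Type) (_ : AddCommGroup G) (_ : TopologicalSpace G),
    IsTopologicalAddGroup G ∧ T2Space G ∧ SeqPseudocompact G ∧ ¬ SelSeqPseudocompact G :=
  ⟨G, inferInstance, inferInstance, inferInstance, inferInstance, seqPseudocompact,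
    not_selSeqPseudocompact⟩

end Pool.Agent.Results.MP_3c9c51_gt.AbelianExample
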